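import Pool.Agent.H84.KBOX.Stmts

/-!
# Row RNK of the board kbx: ranks
-/

set_option autoImplicit false

namespace Pool.KBX

open Finset Real MeasureTheory
open Pool.Agent.H49.Ent Pool.Agent.H32.Dense Pool.STK Pool.KAF Pool.KAL Pool.KS3

namespace RNK

/-- Weights have an injective numbering by their ranks. -/
theorem rank {S : Type*} [DecidableEq S] (w : S → ℝ) (A : Finset S) :
    (∀ s ∈ A, 0 ≤ w s) → ∃ e : S → ℕ, (∀ s ∈ A, e s < A.card) ∧
      (∀ s ∈ A, ∀ s' ∈ A, e s = e s' → s = s') ∧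
      ∀ s ∈ A, ((e s : ℝ) + 1) * w s ≤ ∑ x ∈ A, w x := by
  refine Finset.induction_on_min_value (motive := fun A => (∀ s ∈ A, 0 ≤ w s) → ∃ e : S → ℕ,
    (∀ s ∈ A, e s < A.card) ∧ (∀ s ∈ A, ∀ s' ∈ A, e s = e s' → s = s') ∧
      ∀ s ∈ A, ((e s : ℝ) + 1) * w s ≤ ∑ x ∈ A, w x) w A ?_ ?_
  · intro _
    refine ⟨fun _ => 0, ?_, ?_, ?_⟩ <;> simp
  · intro a A ha hmin ih h0
    obtain ⟨e, e1, e2, e3⟩ := ih fun s hs => h0 s (Finset.mem_insert_of_mem hs)
    have hne : ∀ s ∈ A, s ≠ a := fun s hs h => ha (h ▸ hs)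
    refine ⟨fun s => if s = a then A.card else e s, ?_, ?_, ?_⟩
    · intro s hs
      rw [Finset.card_insert_of_notMem ha]
      rcases Finset.mem_insert.1 hs with h | h
      · simp only [if_pos h]
        omega
      · simp only [if_neg (hne s h)]
        have := e1 s h
        omega
    · intro s hs s' hs' hh
      rcases Finset.mem_insert.1 hs with h | h <;> rcases Finset.mem_insert.1 hs' with h' | h'
      · rw [h, h']
      · simp only [if_pos h, if_neg (hne s' h')] at hh
        have := e1 s' h'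
        omega
      · simp only [if_neg (hne s h), if_pos h'] at hh
        have := e1 s h
        omega
      · simp only [if_neg (hne s h), if_neg (hne s' h')] at hh
        exact e2 s h s' h' hh
    · intro s hs
      rw [Finset.sum_insert ha]
      have ha0 := h0 a (Finset.mem_insert_self _ _)
      rcases Finset.mem_insert.1 hs with h | h
      · simp only [if_pos h]
        rw [h]
        have h1 : (A.card : ℝ) * w a ≤ ∑ x ∈ A, w x := by
          have := Finset.card_nsmul_le_sum A w (w a) hmin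
          rwa [nsmul_eq_mul] at this
        linarith
      · simp only [if_neg (hne s h)]
        have := e3 s h
        linarith

end RNK

open RNK in
theorem rnk_thm : RNKStmt := by
  classical
  intro Ω S T _ p X Z hp
  have h0 := hp.nonneg
  -- the support of the law of X given z
  obtain ⟨A, hA⟩ : ∃ A : T → Finset S, ∀ z s, s ∈ A z ↔ ∃ ω, 0 < p ω ∧ Z ω = z ∧ X ω = s :=
    ⟨fun z => ((univ : Finset Ω).filter fun ω => 0 < p ω ∧ Z ω = z).image X, fun z s => by
      simp only [Finset.mem_image, Finset.mem_filter, Finset.mem_univ, true_and]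
      constructor
      · rintro ⟨ω, ⟨h1, h2⟩, h3⟩
        exact ⟨ω, h1, h2, h3⟩
      · rintro ⟨ω, h1, h2, h3⟩
        exact ⟨ω, ⟨h1, h2⟩, h3⟩⟩
  obtain ⟨w, hw⟩ : ∃ w : T → S → ℝ, w = fun z s => law p (fun ω => (X ω, Z ω)) (s, z) :=
    ⟨_, rfl⟩
  have hw0 : ∀ z s, 0 ≤ w z s := fun z s => by rw [hw]; exact law_nonneg h0 _ _
  have hsum : ∀ z, ∑ s ∈ A z, w z s ≤ law p Z z := by
    intro z
    rw [hw]
    simp only [law]
    rw [Finset.sum_comm]
    refine Finset.sum_le_sum fun ω _ => ?_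
    simp only [Prod.mk.injEq]
    by_cases hz : Z ω = z
    · simp only [hz, and_true, if_true]
      rw [Finset.sum_ite_eq]
      split_ifs
      · exact le_rfl
      · exact h0 ω
    · simp [hz]
  have key := fun z => rank (w z) (A z) fun s _ => hw0 z s
  choose rk r1 r2 r3 using key
  refine ⟨rk, ?_, ?_⟩
  · intro ω ω' hω hω' hz he
    rw [← hz] at he
    exact r2 (Z ω) (X ω) ((hA _ _).2 ⟨ω, hω, rfl, rfl⟩) (X ω') ((hA _ _).2 ⟨ω', hω', hz.symm, rfl⟩) he
  · rw [CH_eq_neg_sum h0 X Z]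
    refine Ex_mono h0 fun ω hω => ?_
    have h1 := r3 (Z ω) (X ω) ((hA _ _).2 ⟨ω, hω, rfl, rfl⟩)
    have h2 := h1.trans (hsum (Z ω))
    have h3 : 0 < w (Z ω) (X ω) := by
      rw [hw]
      exact law_pos h0 (fun ω => (X ω, Z ω)) hω
    have h4 : 0 < law p Z (Z ω) := law_pos h0 Z hω
    have h5 : (0 : ℝ) < (rk (Z ω) (X ω) : ℝ) + 1 := by positivity
    have h6 : (rk (Z ω) (X ω) : ℝ) + 1 ≤ (w (Z ω) (X ω) / law p Z (Z ω))⁻¹ := by
      rw [inv_div, le_div_iff₀ h3]
      exact h2
    have h7 := Real.log_le_log h5 h6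
    rw [Real.log_inv] at h7
    rw [hw] at h7
    exact h7

end Pool.KBX
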